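import Pool.Agent.V11150.GapS

/-!
# Differences of square roots inside an arbitrary set of primes

Let `0 < ε ≤ 1/6`. For all large `x`, EVERY set `S` of primes up to `x` and EVERY finite set `Q` of moduli whose sum
is at most `x ^ (1/2 - 3 ε)`: all elements `P` of `S` with at most `6 x ^ (1 - ε)` exceptions have, simultaneously
for all `q ∈ Q`, at least `x ^ ε` elements `P' > P` of the same set `S` with `P' ≡ P` modulo `q` and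
`√P' - √P ≤ x ^ (-ε / 2)`.
-/

set_option autoImplicit false

namespace Pool.Agent.Results.MP_3998cf_nt.EverySetOfPrimes

open Finset

theorem result (ε : ℝ) (hε : 0 < ε) (hε1 : ε ≤ 1 / 6) : ∃ X₀ : ℕ, ∀ x : ℕ, X₀ ≤ x → ∀ S : Finset ℕ,
    (∀ P ∈ S, P.Prime ∧ P ≤ x) → ∀ Q : Finset ℕ, (∀ q ∈ Q, 0 < q) →
    (∑ q ∈ Q, (q : ℝ)) ≤ (x : ℝ) ^ (1 / 2 - 3 * ε) →
    ∃ E : Finset ℕ, E ⊆ S ∧ (E.card : ℝ) ≤ 6 * (x : ℝ) ^ (1 - ε) ∧ ∀ P ∈ S, P ∉ E → ∀ q ∈ Q,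
      ∃ N : Finset ℕ, N ⊆ S ∧ (x : ℝ) ^ ε ≤ (N.card : ℝ) ∧
        ∀ P' ∈ N, P < P' ∧ P' ≡ P [MOD q] ∧ √(P' : ℝ) - √(P : ℝ) ≤ (x : ℝ) ^ (-(ε / 2)) := by
  obtain ⟨X₀, hX₀⟩ := Pool.Agent.V11150.GapS.main ε hε hε1
  exact ⟨X₀, fun x hx S hS Q hQ0 hQ => hX₀ x hx S (fun P hP => (hS P hP).2) Q hQ0 hQ⟩

end Pool.Agent.Results.MP_3998cf_nt.EverySetOfPrimes
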