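import Pool.Agent.V11237.LP.Short

set_option autoImplicit false

/-!
# The laws of the differences of the square roots of almost primes

Call `m` good if it has no prime factor up to `n ^ (1 / r)`. The conjecture says that the difference of the
square roots of consecutive primes tends to zero. For good integers the differences of the square roots
follow, in EVERY interval `(u, u + Y]` with `n ≤ u`, `√(u + Y) ≤ √n + 1` and `Y ≥ n ^ θ`, the law of a Poisson
process: let `U` be the product of `1 - 1 / p` over the primes `p ≤ n ^ (1 / r)`. The number of the good `m` in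
`(u, u + Y]` for which the square root of the `l`-th good integer before `m` is smaller than `√m - s` is
`Y · U · ∑_(j < l) e ^ (-x) x ^ j / j!` with `x = 2 s √n U`, up to at most `ε · Y · U`.
-/

namespace Pool.Agent.Results.MP_3998cf_nt.SquareRootGapLaws

open Finset Filter
open Pool.Agent.V11237.LP.Short

open Classical in
/-- The number of the good `m` in `(u, u + Y]` such that fewer than `l` good integers `t < m` satisfy
`√m - √t ≤ s`. -/
noncomputable def S (N r l : ℕ) (s : ℝ) (u Y : ℕ) : ℕ :=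
  ((Ioc u (u + Y)).filter (fun m => Good N r m ∧
    ((range m).filter (fun t => Good N r t ∧ √(m : ℝ) - √(t : ℝ) ≤ s)).card < l)).card

/-- the probability that a Poisson variable with mean `x` is less than `l` -/
noncomputable def f (l : ℕ) (x : ℝ) : ℝ := ∑ j ∈ range l, Real.exp (-x) * x ^ j / j.factorial

lemma f_deriv (l : ℕ) (x : ℝ) :
    HasDerivAt (f (l + 1)) (-(Real.exp (-x) * x ^ l / l.factorial)) x := by
  induction l with
  | zero =>
    have h : f (0 + 1) = fun y : ℝ => Real.exp (-y) := by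
      funext y
      simp [f]
    rw [h]
    have := (hasDerivAt_neg x).exp
    simpa using this
  | succ l ih =>
    have h : f (l + 1 + 1) = fun y : ℝ => f (l + 1) y +
        Real.exp (-y) * y ^ (l + 1) / (l + 1).factorial := by
      funext y
      unfold f
      rw [Finset.sum_range_succ _ (l + 1)]
    rw [h]
    have h1 : HasDerivAt (fun y : ℝ => Real.exp (-y) * y ^ (l + 1) / (l + 1).factorial)
        ((Real.exp (-x) * (-1) * x ^ (l + 1) + Real.exp (-x) * (((l + 1 : ℕ) : ℝ) * x ^ l)) /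
          (l + 1).factorial) x := by
      have h2 := (hasDerivAt_neg x).exp
      have h3 := hasDerivAt_pow (l + 1) x
      rw [Nat.add_sub_cancel] at h3
      exact (h2.mul h3).div_const _
    have h4 := ih.add h1
    refine h4.congr_deriv ?_
    have h5 : ((l + 1).factorial : ℝ) = (l + 1) * l.factorial := by
      rw [Nat.factorial_succ]
      push_cast
      ring
    have h6 : (l.factorial : ℝ) ≠ 0 := by positivity
    rw [h5]
    push_cast
    field_simp
    ring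

lemma f_lip (l : ℕ) {x y : ℝ} (hx : 0 ≤ x) (hy : 0 ≤ y) : |f l x - f l y| ≤ |x - y| := by
  rcases l with _ | l
  · simp [f]
  have key := (convex_Ici (0 : ℝ)).norm_image_sub_le_of_norm_hasDerivWithin_le
    (f := f (l + 1)) (f' := fun x => -(Real.exp (-x) * x ^ l / l.factorial)) (C := 1)
    (x := y) (y := x) (fun z _ => (f_deriv l z).hasDerivWithinAt) ?_ hy hx
  · simpa [Real.norm_eq_abs] using key
  · intro z hz
    have hz0 : (0 : ℝ) ≤ z := hz
    rw [norm_neg, Real.norm_eq_abs, abs_of_nonneg (by positivity)]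
    have h1 := Real.pow_div_factorial_le_exp z hz0 l
    rw [mul_div_assoc]
    calc Real.exp (-z) * (z ^ l / l.factorial) ≤ Real.exp (-z) * Real.exp z :=
          mul_le_mul_of_nonneg_left h1 (Real.exp_pos _).le
      _ = 1 := by rw [← Real.exp_add]; simp

lemma U_pos (n r : ℕ) : 0 < U n r := by
  unfold U
  refine Finset.prod_pos fun p hp => ?_
  have hp1 : p.Prime := (mem_filter.1 hp).2
  have h2 : (2 : ℝ) ≤ p := by exact_mod_cast hp1.two_le
  have h3 : 1 / (p : ℝ) ≤ 1 / 2 := one_div_le_one_div_of_le (by norm_num) h2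
  linarith

lemma U_small {r : ℕ} (hr : 2 ≤ r) {δ : ℝ} (hδ : 0 < δ) : ∀ᶠ n : ℕ in atTop, U n r ≤ δ := by
  obtain ⟨C, hC, hVz⟩ := Pool.Agent.Y879.GL.Vz_up r hr
  have hlog : Tendsto (fun n : ℕ => Real.log n) atTop atTop :=
    Real.tendsto_log_atTop.comp tendsto_natCast_atTop_atTop
  filter_upwards [hVz, hlog.eventually_ge_atTop (C / δ), hlog.eventually_gt_atTop 0] with n h1 h2 h3
  refine le_trans ?_ (h1.2.trans ?_)
  · exact le_rfl
  · rw [div_le_iff₀ h3]
    rw [div_le_iff₀ hδ] at h2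
    linarith

section compare

variable {n r l m : ℕ} {s : ℝ}

lemma lower (hs0 : 0 ≤ s) (hs1 : s ≤ 1) (hm : n ≤ m) {t : ℕ}
    (ht : t ∈ Ico (m - ⌊2 * s * √(n : ℝ) - 1⌋₊) m) : √(m : ℝ) - √(t : ℝ) ≤ s := by
  rw [mem_Ico] at ht
  have hn0 : (0 : ℝ) ≤ n := Nat.cast_nonneg n
  have hnm : (n : ℝ) ≤ m := by exact_mod_cast hm
  have hsq : √(n : ℝ) ≤ √(m : ℝ) := Real.sqrt_le_sqrt hnm
  have hs2 : √(m : ℝ) ^ 2 = m := Real.sq_sqrt (by linarith)
  rcases le_or_gt 0 (2 * s * √(n : ℝ) - 1) with h | h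
  · have h1 : (⌊2 * s * √(n : ℝ) - 1⌋₊ : ℝ) ≤ 2 * s * √(n : ℝ) - 1 := Nat.floor_le h
    have h2 : (m : ℝ) ≤ t + ⌊2 * s * √(n : ℝ) - 1⌋₊ := by
      have := Nat.sub_le_iff_le_add.1 ht.1
      exact_mod_cast this
    have h3 : √(m : ℝ) - s ≤ √(t : ℝ) := by
      apply Real.le_sqrt_of_sq_le
      nlinarith
    linarith
  · have h1 : ⌊2 * s * √(n : ℝ) - 1⌋₊ = 0 := Nat.floor_of_nonpos h.le
    rw [h1] at ht
    omega

lemma upper (hn : 8 ≤ n) (hs0 : 0 ≤ s) (hs1 : s ≤ 1) (hm : n ≤ m) (hm2 : √(m : ℝ) ≤ √n + 1) {t : ℕ}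
    (ht : t < m) (hts : √(m : ℝ) - √(t : ℝ) ≤ s) : t ∈ Ico (m - ⌊2 * s * √(n : ℝ) + 2⌋₊) m := by
  rw [mem_Ico]
  refine ⟨?_, ht⟩
  have hn8 : (8 : ℝ) ≤ n := by exact_mod_cast hn
  have hnm : (n : ℝ) ≤ m := by exact_mod_cast hm
  have h1 : (1 : ℝ) ≤ √(m : ℝ) := by
    rw [Real.one_le_sqrt]
    linarith
  have hs2 : √(m : ℝ) ^ 2 = m := Real.sq_sqrt (by linarith)
  have ht2 : √(t : ℝ) ^ 2 = t := Real.sq_sqrt (Nat.cast_nonneg t)
  have h2 : (√(m : ℝ) - s) ^ 2 ≤ t := by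
    rw [← ht2]
    exact pow_le_pow_left₀ (by linarith) (by linarith) 2
  have h3 : (m : ℝ) - t ≤ 2 * s * √(n : ℝ) + 2 := by nlinarith
  have h4 : m - t ≤ ⌊2 * s * √(n : ℝ) + 2⌋₊ := by
    apply Nat.le_floor
    rw [Nat.cast_sub ht.le]
    exact h3
  omega

end compare

/-- **The laws of the differences of the square roots of almost primes** in all intervals `(u, u + Y]` of
length at least `n ^ θ` contained in `[n, (√n + 1) ^ 2]`. -/
theorem result (θ : ℝ) (hθ : 0 < θ) (l₀ : ℕ) (x₀ ε : ℝ) (hε : 0 < ε) :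
    ∃ r₀ : ℕ, ∀ r : ℕ, r₀ ≤ r → ∃ n₀ : ℕ, ∀ n : ℕ, n₀ ≤ n →
      (∀ m : ℕ, m ≠ 0 → √(m : ℝ) ≤ √n + 1 → Good n r m → m.primeFactorsList.length ≤ 2 * r) ∧
      ∀ u Y : ℕ, n ≤ u ∧ √((u : ℝ) + Y) ≤ √n + 1 → (n : ℝ) ^ θ ≤ Y →
        ∀ (l : ℕ) (s : ℝ), 0 ≤ s ∧ s ≤ 1 → (l ≤ l₀ ∨ 2 * s * √n * U n r ≤ x₀) →
        |(S n r l s u Y : ℝ) - Y * U n r *
          ∑ j ∈ range l, Real.exp (-(2 * s * √n * U n r)) * (2 * s * √n * U n r) ^ j / j.factorial| ≤
        ε * (Y * U n r) := by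
  classical
  obtain ⟨r0, _, h0⟩ := gaps θ hθ l₀ (x₀ + 2) (ε / 2) (by positivity)
  refine ⟨max r0 2, ?_⟩
  intro r hr
  have hr2 : 2 ≤ r := (le_max_right _ _).trans hr
  obtain ⟨N0, hN0⟩ := h0 r ((le_max_left _ _).trans hr)
  obtain ⟨N1, hN1⟩ := eventually_atTop.1
    ((U_small hr2 (show 0 < ε / 4 by positivity)).and (U_small hr2 one_pos))
  refine ⟨max (max N0 N1) 8, ?_⟩
  intro n hn
  have hb : 8 ≤ n := (le_max_right _ _).trans hn
  have hn8 : (8 : ℝ) ≤ n := by exact_mod_cast hb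
  have hn0 : (0 : ℝ) < n := by linarith
  obtain ⟨hU4, hU1⟩ := hN1 n (((le_max_right _ _).trans (le_max_left _ _)).trans hn)
  have hNn := hN0 n (((le_max_left _ _).trans (le_max_left _ _)).trans hn)
  have hU := U_pos n r
  refine ⟨?_, ?_⟩
  · intro m hm0 hm hg
    refine few (by omega) (by omega) hm0 ?_ hg
    have h1 : √(n : ℝ) ^ 2 = n := Real.sq_sqrt hn0.le
    have h2 : √(m : ℝ) ^ 2 = m := Real.sq_sqrt (Nat.cast_nonneg m)
    have h3 : (1 : ℝ) ≤ √n := by
      rw [Real.one_le_sqrt]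
      linarith
    have h4 : (m : ℝ) ≤ (√n + 1) ^ 2 := by
      rw [← h2]
      exact pow_le_pow_left₀ (Real.sqrt_nonneg _) hm 2
    have h5 : (m : ℝ) ≤ (n : ℝ) ^ 2 := by nlinarith
    exact_mod_cast h5
  · rintro u Y ⟨hu, huY⟩ hY l s ⟨hs0, hs1⟩ hl
    have hsn : 0 ≤ 2 * s * √(n : ℝ) := by positivity
    set Tm := ⌊2 * s * √(n : ℝ) - 1⌋₊ with hTm
    set Tp := ⌊2 * s * √(n : ℝ) + 2⌋₊ with hTp
    have hTp1 : (Tp : ℝ) ≤ 2 * s * √(n : ℝ) + 2 := Nat.floor_le (by linarith)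
    have hTp2 : 2 * s * √(n : ℝ) + 2 < Tp + 1 := Nat.lt_floor_add_one _
    have hTm2 : 2 * s * √(n : ℝ) - 1 < Tm + 1 := Nat.lt_floor_add_one _
    have hTm1 : (Tm : ℝ) ≤ 2 * s * √(n : ℝ) := by
      rcases le_or_gt 0 (2 * s * √(n : ℝ) - 1) with h | h
      · have := Nat.floor_le h
        linarith
      · rw [hTm, Nat.floor_of_nonpos h.le]
        simpa using hsn
    have hsub : ∀ m ∈ Ioc u (u + Y), n ≤ m ∧ √(m : ℝ) ≤ √n + 1 := by
      intro m hm
      rw [mem_Ioc] at hm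
      refine ⟨by omega, le_trans (Real.sqrt_le_sqrt ?_) huY⟩
      exact_mod_cast hm.2
    have hlow : (S n r l s u Y : ℝ) ≤ G n r l Tm u Y := by
      unfold S G
      norm_cast
      apply Finset.card_le_card
      intro m hm
      rw [mem_filter] at hm ⊢
      refine ⟨hm.1, hm.2.1, lt_of_le_of_lt (Finset.card_le_card ?_) hm.2.2⟩
      intro t ht
      rw [mem_filter] at ht ⊢
      exact ⟨mem_range.2 (mem_Ico.1 ht.1).2, ht.2, lower hs0 hs1 (hsub m hm.1).1 ht.1⟩
    have hup : (G n r l Tp u Y : ℝ) ≤ S n r l s u Y := by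
      unfold S G
      norm_cast
      apply Finset.card_le_card
      intro m hm
      rw [mem_filter] at hm ⊢
      refine ⟨hm.1, hm.2.1, lt_of_le_of_lt (Finset.card_le_card ?_) hm.2.2⟩
      intro t ht
      rw [mem_filter] at ht ⊢
      exact ⟨upper hb hs0 hs1 (hsub m hm.1).1 (hsub m hm.1).2 (mem_range.1 ht.1) ht.2.2, ht.2.1⟩
    have hcond : ∀ T : ℕ, (T : ℝ) ≤ 2 * s * √(n : ℝ) + 2 → (l ≤ l₀ ∨ T * U n r ≤ x₀ + 2) := by
      intro T hT
      rcases hl with h | h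
      · exact Or.inl h
      · right
        have := mul_le_mul_of_nonneg_right hT hU.le
        nlinarith
    have k1 := hNn u Y hY l Tm (hcond Tm (by linarith))
    have k2 := hNn u Y hY l Tp (hcond Tp hTp1)
    have hYU : 0 ≤ (Y : ℝ) * U n r := by positivity
    have hd : ∀ T : ℕ, |(T : ℝ) - 2 * s * √(n : ℝ)| ≤ 2 →
        |Y * U n r * f l (T * U n r) - Y * U n r * f l (2 * s * √(n : ℝ) * U n r)| ≤
          ε / 2 * (Y * U n r) := by
      intro T hT
      rw [← mul_sub, abs_mul, abs_of_nonneg hYU, mul_comm (ε / 2)]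
      apply mul_le_mul_of_nonneg_left _ hYU
      refine (f_lip l (by positivity) (by positivity)).trans ?_
      rw [← sub_mul, abs_mul, abs_of_nonneg hU.le]
      nlinarith [abs_nonneg ((T : ℝ) - 2 * s * √(n : ℝ))]
    have d1 := hd Tm (by rw [abs_le]; constructor <;> linarith)
    have d2 := hd Tp (by rw [abs_le]; constructor <;> linarith)
    have e1 : ∀ T : ℝ, ∑ j ∈ range l, Real.exp (-(T * U n r)) * (T * U n r) ^ j / (j.factorial : ℝ) =
        f l (T * U n r) := fun T => rfl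
    rw [e1] at k1 k2
    show |(S n r l s u Y : ℝ) - Y * U n r * f l (2 * s * √(n : ℝ) * U n r)| ≤ ε * (Y * U n r)
    rw [abs_le] at k1 k2 d1 d2 ⊢
    constructor <;> linarith [k1.1, k1.2, k2.1, k2.2, d1.1, d1.2, d2.1, d2.2]

end Pool.Agent.Results.MP_3998cf_nt.SquareRootGapLaws
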