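import Pool.Agent.Results.MP_3998cf_nt.SubsetsNearPowers
import Pool.Agent.V1172.PW.Eng2

/-!
# Differences of square roots inside arbitrary sets of primes: ALL elements in shrinking residue classes

Let `0 < ε ≤ 1/6`, `l` a prime number, `s > 0`, and let `S` be ANY set of primes. For each `k` let `Q_k` be a finite set of moduli
with sum at most `2 ^ ((1/2 - 3ε) k)`, for example all `q ≤ 2 ^ ((1/4 - 3ε/2) k)`. For all `l`-adic integers `a` outside a set of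
Hausdorff dimension at most `(1 - ε) / s` and all large `T`, ALL elements `P ≤ T` of `S` with `|P - a|_l ≤ T ^ (-s)`, that is, in
the residue class of `a` modulo the least `l ^ f ≥ T ^ s`, have for all `q` in `Q_k`, `2 ^ k ≤ P < 2 ^ (k + 1)`, at least `P ^ ε`
elements `P' > P` of the same set `S` with `P' ≡ P` modulo `q` and `√P' - √P ≤ P ^ (-ε/2)`.
-/

set_option autoImplicit false

open Finset

namespace Pool.Agent.Results.MP_3998cf_nt.SubsetsInResidueClasses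

open SubsetsNearPowers (Good Bad)

/-- **Theorem.** Let `0 < ε ≤ 1/6`, `l` a prime, `s > 0` and, for `j` in a countable set, let `S j` be ANY set of primes and
`Q j k` finite sets of moduli with sum at most `(2 ^ k) ^ (1/2 - 3ε)`. There is a set `E` of Hausdorff dimension at most
`(1 - ε) / s` such that for all `a ∈ ℤ_l` outside `E`, all `j` and all large `T`, ALL elements `P ≤ T` of `S j` with
`|P - a|_l ≤ T ^ (-s)` have, for all `q` in `Q j k`, `2 ^ k ≤ P < 2 ^ (k+1)`, at least `P ^ ε` elements `P' > P` of `S j` with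
`P' ≡ P` modulo `q` and `√P' - √P ≤ P ^ (-ε/2)`. -/
theorem result (ε : ℝ) (hε : 0 < ε) (hε1 : ε ≤ 1 / 6) (l : ℕ) [Fact l.Prime] (s : ℝ) (hs : 0 < s)
    (J : Type) [Countable J] (S : J → Set ℕ) (hS : ∀ j, ∀ P ∈ S j, P.Prime)
    (Q : J → ℕ → Finset ℕ) (hQ0 : ∀ j k, ∀ q ∈ Q j k, 0 < q)
    (hQ : ∀ (j : J) (k : ℕ), (∑ q ∈ Q j k, (q : ℝ)) ≤ ((2 : ℝ) ^ k) ^ (1 / 2 - 3 * ε)) :
    ∃ E : Set ℤ_[l], dimH E ≤ ENNReal.ofReal ((1 - ε) / s) ∧ ∀ a : ℤ_[l], a ∉ E → ∀ j : J,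
      ∃ T₀ : ℝ, ∀ T : ℝ, T₀ ≤ T → ∀ P ∈ S j, (P : ℝ) ≤ T → ‖(P : ℤ_[l]) - a‖ ≤ T ^ (-s) →
        ∀ q ∈ Q j (Nat.log 2 P), ∃ N : Finset ℕ, (P : ℝ) ^ ε ≤ (N.card : ℝ) ∧
          ∀ P' ∈ N, P' ∈ S j ∧ P < P' ∧ P' ≡ P [MOD q] ∧ √(P' : ℝ) - √(P : ℝ) ≤ (P : ℝ) ^ (-(ε / 2)) := by
  classical
  obtain ⟨X₀, hX₀⟩ := EverySetOfPrimes.result ε hε hε1
  obtain ⟨E, h1, h2⟩ := Pool.Agent.V1172.PW.objs l (P := ℕ) (fun n => (n : ℤ)) (ι := J)
    (fun j => Bad ε (S j) (Q j)) (s := 1 - ε) (by linarith) (fun j η hη => by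
      obtain ⟨M, hM0, hM⟩ := Pool.Agent.V11326.WD.dyadic (max X₀ 1) hη
      refine ⟨M * 24, fun X hX => ?_⟩
      have e : {t : ℕ | t ∈ Bad ε (S j) (Q j) ∧ |(((t : ℤ)) : ℝ)| ≤ X} =
          {n | n ∈ Bad ε (S j) (Q j) ∧ (n : ℝ) ≤ X} := by
        ext v
        refine and_congr_right fun _ => ?_
        rw [Int.cast_natCast, Nat.abs_cast]
      rw [e]
      constructor
      · exact (Set.finite_Icc 0 ⌊X⌋₊).subset fun t ht => ⟨Nat.zero_le _, Nat.le_floor ht.2⟩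
      · refine hM (1 - ε) (by linarith) (Bad ε (S j) (Q j)) 24 (by norm_num) ?_ X hX
        intro D hD
        have hDX : X₀ ≤ D := (le_max_left _ _).trans hD
        have hD1 : 1 ≤ D := (le_max_right _ _).trans hD
        set k : ℕ := Nat.log 2 D with hk
        have hDk2 : D < 2 ^ (k + 1) := Nat.lt_pow_succ_log_self (by norm_num) D
        have hfin : ∀ l : ℕ, {P : ℕ | P ∈ Bad ε (S j) (Q j) ∧ Nat.log 2 P = l ∧ D < P ∧ P < 2 * D}.Finite := fun l =>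
          (Set.finite_Iio (2 * D)).subset fun P hP => hP.2.2.2
        have hsub : {d : ℕ | d ∈ Bad ε (S j) (Q j) ∧ D < d ∧ d < 2 * D} ⊆
            {P : ℕ | P ∈ Bad ε (S j) (Q j) ∧ Nat.log 2 P = k ∧ D < P ∧ P < 2 * D} ∪
              {P : ℕ | P ∈ Bad ε (S j) (Q j) ∧ Nat.log 2 P = k + 1 ∧ D < P ∧ P < 2 * D} := by
          rintro d ⟨hd, hd1, hd2⟩
          have h1 : k ≤ Nat.log 2 d := Nat.log_mono_right hd1.le
          have h2 : Nat.log 2 d < k + 2 := by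
            apply Nat.log_lt_of_lt_pow (by omega)
            calc d < 2 * D := hd2
              _ < 2 * 2 ^ (k + 1) := by omega
              _ = 2 ^ (k + 2) := by ring
          rcases Nat.lt_or_ge (Nat.log 2 d) (k + 1) with h3 | h3
          · exact Or.inl ⟨hd, by omega, hd1, hd2⟩
          · exact Or.inr ⟨hd, by omega, hd1, hd2⟩
        have h5 : ({d : ℕ | d ∈ Bad ε (S j) (Q j) ∧ D < d ∧ d < 2 * D}.ncard : ℝ) ≤
            ({P : ℕ | P ∈ Bad ε (S j) (Q j) ∧ Nat.log 2 P = k ∧ D < P ∧ P < 2 * D}.ncard : ℝ) +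
              ({P : ℕ | P ∈ Bad ε (S j) (Q j) ∧ Nat.log 2 P = k + 1 ∧ D < P ∧ P < 2 * D}.ncard : ℝ) := by
          exact_mod_cast (Set.ncard_le_ncard hsub ((hfin _).union (hfin _))).trans (Set.ncard_union_le _ _)
        have h6 := SubsetsNearPowers.scale hε hX₀ hε1 (S j) (hS j) (Q j) (hQ0 j) (hQ j) D k hDX hD1
        have h7 := SubsetsNearPowers.scale hε hX₀ hε1 (S j) (hS j) (Q j) (hQ0 j) (hQ j) D (k + 1) hDX hD1
        linarith) hs
  refine ⟨E, h1, fun a ha j => ?_⟩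
  obtain ⟨T₀, hT⟩ := h2 a ha j
  refine ⟨T₀, fun T hT1 P hP hPT hPa => ?_⟩
  have h3 : Good ε (S j) (Q j (Nat.log 2 P)) P := by
    by_contra hcon
    refine hT T hT1 P ?_ ?_ ⟨hP, hcon⟩
    · rw [Int.cast_natCast, Nat.abs_cast]
      exact hPT
    · rw [Int.cast_natCast]
      exact hPa
  exact h3

end Pool.Agent.Results.MP_3998cf_nt.SubsetsInResidueClasses
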