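import Pool.Agent.Results.MP_3998cf_nt.EverySetOfPrimes
import Pool.Agent.V11326.WD
import Pool.Agent.V11001.KM.Near

/-!
# Differences of square roots inside arbitrary sets of primes: ALL elements near the powers of almost every real number

Let `0 < ε ≤ 1/6`, `ν n / log n → ∞`, for example `ν n = n`, `θ < 1`, and let `S` be ANY set of primes. For each `k` let `Q_k`
be a finite set of moduli with sum at most `2 ^ ((1/2 - 3ε) k)`, for example all `q ≤ 2 ^ ((1/4 - 3ε/2) k)`. For all real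
`z > 1` outside a set of Hausdorff dimension at most `(1 - ε) / (1 - θ)` ALL large elements `P` of `S` with
`|P - b z ^ (ν n)| ≤ z ^ (θ ν n)` for some `n` have for all `q` in `Q_k`, `2 ^ k ≤ P < 2 ^ (k + 1)`, at least `P ^ ε` elements
`P' > P` of the same set `S` with `P' ≡ P` modulo `q` and `√P' - √P ≤ P ^ (-ε/2)`.
-/

set_option autoImplicit false

open Finset

namespace Pool.Agent.Results.MP_3998cf_nt.SubsetsNearPowers

open Pool.Agent.V11001.KM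

/-- for all `q` in `Q` there are at least `P ^ ε` elements `P' > P` of `S` with `P' ≡ P` modulo `q` and
`√P' - √P ≤ P ^ (-ε/2)` -/
def Good (ε : ℝ) (S : Set ℕ) (Q : Finset ℕ) (P : ℕ) : Prop :=
  ∀ q ∈ Q, ∃ N : Finset ℕ, (P : ℝ) ^ ε ≤ (N.card : ℝ) ∧
    ∀ P' ∈ N, P' ∈ S ∧ P < P' ∧ P' ≡ P [MOD q] ∧ √(P' : ℝ) - √(P : ℝ) ≤ (P : ℝ) ^ (-(ε / 2))

/-- the exceptional elements -/
def Bad (ε : ℝ) (S : Set ℕ) (Q : ℕ → Finset ℕ) : Set ℕ := {P : ℕ | P ∈ S ∧ ¬ Good ε S (Q (Nat.log 2 P)) P}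

/-- the exceptional elements of one dyadic scale -/
theorem scale {ε : ℝ} (hε : 0 < ε) {X₀ : ℕ}
    (hX₀ : ∀ x : ℕ, X₀ ≤ x → ∀ S : Finset ℕ,
      (∀ P ∈ S, P.Prime ∧ P ≤ x) → ∀ Q : Finset ℕ, (∀ q ∈ Q, 0 < q) →
      (∑ q ∈ Q, (q : ℝ)) ≤ (x : ℝ) ^ (1 / 2 - 3 * ε) →
      ∃ E : Finset ℕ, E ⊆ S ∧ (E.card : ℝ) ≤ 6 * (x : ℝ) ^ (1 - ε) ∧ ∀ P ∈ S, P ∉ E → ∀ q ∈ Q,
        ∃ N : Finset ℕ, N ⊆ S ∧ (x : ℝ) ^ ε ≤ (N.card : ℝ) ∧
          ∀ P' ∈ N, P < P' ∧ P' ≡ P [MOD q] ∧ √(P' : ℝ) - √(P : ℝ) ≤ (x : ℝ) ^ (-(ε / 2)))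
    (hε1 : ε ≤ 1 / 6) (S : Set ℕ) (hS : ∀ P ∈ S, P.Prime) (Q : ℕ → Finset ℕ) (hQ0 : ∀ k, ∀ q ∈ Q k, 0 < q)
    (hQ : ∀ k : ℕ, (∑ q ∈ Q k, (q : ℝ)) ≤ ((2 : ℝ) ^ k) ^ (1 / 2 - 3 * ε)) (D k : ℕ) (hD : X₀ ≤ D) (hD1 : 1 ≤ D) :
    ({P : ℕ | P ∈ Bad ε S Q ∧ Nat.log 2 P = k ∧ D < P ∧ P < 2 * D}.ncard : ℝ) ≤ 12 * (D : ℝ) ^ (1 - ε) := by
  classical
  have hDr : (1 : ℝ) ≤ D := by exact_mod_cast hD1
  have h0 : (0 : ℝ) ≤ 12 * (D : ℝ) ^ (1 - ε) := by positivity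
  rcases Set.eq_empty_or_nonempty {P : ℕ | P ∈ Bad ε S Q ∧ Nat.log 2 P = k ∧ D < P ∧ P < 2 * D} with he | ⟨P₀, hP₀⟩
  · rw [he, Set.ncard_empty]
    simpa using h0
  · have hk : 2 ^ k ≤ 2 * D := by
      obtain ⟨-, h1, h2, h3⟩ := hP₀
      have := Nat.pow_log_le_self 2 (x := P₀) (by omega)
      rw [h1] at this
      omega
    have hkr : (2 : ℝ) ^ k ≤ ((2 * D : ℕ) : ℝ) := by exact_mod_cast hk
    obtain ⟨T, hT⟩ : ∃ T : Finset ℕ, T = (Icc 1 (2 * D)).filter (· ∈ S) := ⟨_, rfl⟩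
    obtain ⟨E, -, hE1, hE2⟩ := hX₀ (2 * D) (by omega) T (fun P hP => by
        rw [hT, Finset.mem_filter, Finset.mem_Icc] at hP
        exact ⟨hS P hP.2, hP.1.2⟩) (Q k) (hQ0 k)
      ((hQ k).trans (Real.rpow_le_rpow (by positivity) hkr (by linarith)))
    have hsub : {P : ℕ | P ∈ Bad ε S Q ∧ Nat.log 2 P = k ∧ D < P ∧ P < 2 * D} ⊆ (E : Set ℕ) := by
      rintro P ⟨⟨hP, hbad⟩, hlog, hP1, hP2⟩
      by_contra hPE
      apply hbad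
      rw [hlog]
      intro q hq
      have hP0 : (0 : ℝ) < P := by exact_mod_cast (hS P hP).pos
      have hPx : (P : ℝ) ≤ ((2 * D : ℕ) : ℝ) := by exact_mod_cast hP2.le
      obtain ⟨N, hN1, hN2, hN3⟩ := hE2 P (by
        rw [hT, Finset.mem_filter, Finset.mem_Icc]
        exact ⟨⟨(hS P hP).one_lt.le, hP2.le⟩, hP⟩) hPE q hq
      refine ⟨N, (Real.rpow_le_rpow hP0.le hPx hε.le).trans hN2, fun P' hP' => ?_⟩
      obtain ⟨h1, h2, h3⟩ := hN3 P' hP'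
      have h4 := hN1 hP'
      rw [hT, Finset.mem_filter] at h4
      exact ⟨h4.2, h1, h2, h3.trans (Real.rpow_le_rpow_of_nonpos hP0 hPx (by linarith))⟩
    have h2 := Set.ncard_le_ncard hsub (Finset.finite_toSet _)
    rw [Set.ncard_coe_finset] at h2
    calc ({P : ℕ | P ∈ Bad ε S Q ∧ Nat.log 2 P = k ∧ D < P ∧ P < 2 * D}.ncard : ℝ) ≤
          (E.card : ℝ) := by exact_mod_cast h2
      _ ≤ 6 * ((2 * D : ℕ) : ℝ) ^ (1 - ε) := hE1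
      _ = 6 * ((2 : ℝ) ^ (1 - ε) * (D : ℝ) ^ (1 - ε)) := by
          push_cast
          rw [Real.mul_rpow (by norm_num) (by linarith)]
      _ ≤ 6 * (2 * (D : ℝ) ^ (1 - ε)) := by
          have h3 : (2 : ℝ) ^ (1 - ε) ≤ 2 := by
            calc (2 : ℝ) ^ (1 - ε) ≤ 2 ^ (1 : ℝ) := Real.rpow_le_rpow_of_exponent_le (by norm_num) (by linarith)
              _ = 2 := Real.rpow_one 2
          have h4 : 0 ≤ (D : ℝ) ^ (1 - ε) := by positivity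
          nlinarith
      _ = 12 * (D : ℝ) ^ (1 - ε) := by ring

/-- **Theorem.** Let `0 < ε ≤ 1/6`, `ν n / log n → ∞`, `θ < 1`, let `U` be a countable set of real numbers and, for `j` in a
countable set, let `S j` be ANY set of primes and `Q j k` finite sets of moduli with sum at most `(2 ^ k) ^ (1/2 - 3ε)`. There
is a set `E` of Hausdorff dimension at most `(1 - ε) / (1 - θ)` such that for all `z > 1` outside `E`, all `b > 0` in `U` and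
all `j` ALL large elements `P` of `S j` with `|P - b z ^ (ν n)| ≤ z ^ (θ ν n)` for some `n` have, for all `q` in `Q j k`,
`2 ^ k ≤ P < 2 ^ (k+1)`, at least `P ^ ε` elements `P' > P` of `S j` with `P' ≡ P` modulo `q` and
`√P' - √P ≤ P ^ (-ε/2)`. -/
theorem result (ε : ℝ) (hε : 0 < ε) (hε1 : ε ≤ 1 / 6) (ν : ℕ → ℝ) (hν : Fast ν) (U : Set ℝ) (hU : U.Countable)
    (θ : ℝ) (hθ : θ < 1) (J : Type) [Countable J] (S : J → Set ℕ) (hS : ∀ j, ∀ P ∈ S j, P.Prime)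
    (Q : J → ℕ → Finset ℕ) (hQ0 : ∀ j k, ∀ q ∈ Q j k, 0 < q)
    (hQ : ∀ (j : J) (k : ℕ), (∑ q ∈ Q j k, (q : ℝ)) ≤ ((2 : ℝ) ^ k) ^ (1 / 2 - 3 * ε)) :
    ∃ E : Set ℝ, dimH E ≤ ENNReal.ofReal ((1 - ε) / (1 - θ)) ∧ ∀ z : ℝ, 1 < z → z ∉ E → ∀ b ∈ U, 0 < b → ∀ j : J,
      ∃ P₀ : ℝ, ∀ P ∈ S j, P₀ ≤ P → Near ν θ b z P → Good ε (S j) (Q j (Nat.log 2 P)) P := by
  classical
  obtain ⟨X₀, hX₀⟩ := EverySetOfPrimes.result ε hε hε1
  obtain ⟨E, h1, h2⟩ := family_threshold (fun P : ℕ => (P : ℝ)) hν (s := 1 - ε) (by linarith) hθ U hU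
    (J := J) (fun j => Bad ε (S j) (Q j)) (fun j η hη => by
      obtain ⟨M, hM0, hM⟩ := Pool.Agent.V11326.WD.dyadic (max X₀ 1) hη
      refine ⟨M * 24, fun X hX => ⟨?_, ?_⟩⟩
      · exact (Set.finite_Icc 0 ⌊X⌋₊).subset fun t ht => ⟨Nat.zero_le _, Nat.le_floor ht.2⟩
      · refine hM (1 - ε) (by linarith) (Bad ε (S j) (Q j)) 24 (by norm_num) ?_ X hX
        intro D hD
        have hDX : X₀ ≤ D := (le_max_left _ _).trans hD
        have hD1 : 1 ≤ D := (le_max_right _ _).trans hD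
        set k : ℕ := Nat.log 2 D with hk
        have hDk2 : D < 2 ^ (k + 1) := Nat.lt_pow_succ_log_self (by norm_num) D
        have hfin : ∀ l : ℕ, {P : ℕ | P ∈ Bad ε (S j) (Q j) ∧ Nat.log 2 P = l ∧ D < P ∧ P < 2 * D}.Finite := fun l =>
          (Set.finite_Iio (2 * D)).subset fun P hP => hP.2.2.2
        have hsub : {d : ℕ | d ∈ Bad ε (S j) (Q j) ∧ D < d ∧ d < 2 * D} ⊆
            {P : ℕ | P ∈ Bad ε (S j) (Q j) ∧ Nat.log 2 P = k ∧ D < P ∧ P < 2 * D} ∪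
              {P : ℕ | P ∈ Bad ε (S j) (Q j) ∧ Nat.log 2 P = k + 1 ∧ D < P ∧ P < 2 * D} := by
          rintro d ⟨hd, hd1, hd2⟩
          have h1 : k ≤ Nat.log 2 d := Nat.log_mono_right hd1.le
          have h2 : Nat.log 2 d < k + 2 := by
            apply Nat.log_lt_of_lt_pow (by omega)
            calc d < 2 * D := hd2
              _ < 2 * 2 ^ (k + 1) := by omega
              _ = 2 ^ (k + 2) := by ring
          rcases Nat.lt_or_ge (Nat.log 2 d) (k + 1) with h3 | h3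
          · exact Or.inl ⟨hd, by omega, hd1, hd2⟩
          · exact Or.inr ⟨hd, by omega, hd1, hd2⟩
        have h5 : ({d : ℕ | d ∈ Bad ε (S j) (Q j) ∧ D < d ∧ d < 2 * D}.ncard : ℝ) ≤
            ({P : ℕ | P ∈ Bad ε (S j) (Q j) ∧ Nat.log 2 P = k ∧ D < P ∧ P < 2 * D}.ncard : ℝ) +
              ({P : ℕ | P ∈ Bad ε (S j) (Q j) ∧ Nat.log 2 P = k + 1 ∧ D < P ∧ P < 2 * D}.ncard : ℝ) := by
          exact_mod_cast (Set.ncard_le_ncard hsub ((hfin _).union (hfin _))).trans (Set.ncard_union_le _ _)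
        have h6 := scale hε hX₀ hε1 (S j) (hS j) (Q j) (hQ0 j) (hQ j) D k hDX hD1
        have h7 := scale hε hX₀ hε1 (S j) (hS j) (Q j) (hQ0 j) (hQ j) D (k + 1) hDX hD1
        linarith)
  refine ⟨E, h1, fun z hz hzE b hb hb0 j => ?_⟩
  obtain ⟨P₀, h3⟩ := h2 z hz hzE b hb hb0 j
  refine ⟨P₀, fun P hP hPP hn => ?_⟩
  by_contra hcon
  exact absurd (h3 P ⟨hP, hcon⟩ hn) (not_lt.2 hPP)

end Pool.Agent.Results.MP_3998cf_nt.SubsetsNearPowers
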